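import Mathlib.Data.Real.Basic
import Mathlib.Algebra.BigOperators.Group.Finset.Basic
import Mathlib.Data.Finset.Card

/-! Lempel-Ziv parsings with affine copies, and straight-line grammars: definitions. -/

set_option autoImplicit false

namespace Pool.Agent.H723.LZ

/-- At the places `s ≤ t < e` the letter `v t` is `a + ∑ c d * v (t - d)`, the sum over the distances
`d` in a set `S` of at most `D` positive integers which are at most `s`. -/
def IsCopy (D : ℕ) (v : ℕ → ℝ) (s e : ℕ) : Prop :=
  ∃ (S : Finset ℕ) (a : ℝ) (c : ℕ → ℝ), S.card ≤ D ∧ (∀ d ∈ S, 0 < d ∧ d ≤ s) ∧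
    ∀ t, s ≤ t → t < e → v t = a + ∑ d ∈ S, c d * v (t - d)

/-- `Produces D v N z`: the first `N` letters of `v` are produced from left to right by `z`
instructions; each of them writes one arbitrary letter, or it writes an arbitrarily long block of
letters by one affine copy from `D` earlier windows. -/
inductive Produces (D : ℕ) (v : ℕ → ℝ) : ℕ → ℕ → Prop
  | nil : Produces D v 0 0
  | letter {N z : ℕ} : Produces D v N z → Produces D v (N + 1) (z + 1)
  | copy {N M z : ℕ} : Produces D v N z → N ≤ M → IsCopy D v N M → Produces D v M (z + 1)

/-- A straight-line grammar, given by the set of the words which it derives: every word of the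
family with more than one letter is the concatenation of two nonempty words of the family. -/
def IsGrammar {α : Type} (W : Finset (List α)) : Prop :=
  ∀ u ∈ W, u.length ≤ 1 ∨ ∃ a ∈ W, ∃ b ∈ W, a ≠ [] ∧ b ≠ [] ∧ u = a ++ b

end Pool.Agent.H723.LZ
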