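import Mathlib
import Pool.Agent.H723.LZ.Defs

/-! The breakpoints of a parsing; parsings from grammars. -/

set_option autoImplicit false

namespace Pool.Agent.H723.LZ

/-- Linear copies: without the constant. -/
def LinCopy (D : ℕ) (v : ℕ → ℝ) (s e : ℕ) : Prop :=
  ∃ (S : Finset ℕ) (c : ℕ → ℝ), S.card ≤ D ∧ (∀ d ∈ S, 0 < d ∧ d ≤ s) ∧
    ∀ t, s ≤ t → t < e → v t = ∑ d ∈ S, c d * v (t - d)

/-- The constant is removed by taking differences. -/
theorem IsCopy.toLin {D : ℕ} {v : ℕ → ℝ} {s e : ℕ} (h : IsCopy D v s e) :
    LinCopy (2 * D + 1) v (s + 1) e := by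
  classical
  obtain ⟨S, a, c, hS, hd, hv⟩ := h
  set S₁ := S.image Nat.succ with hS₁
  refine ⟨insert 1 (S ∪ S₁), fun d => (if d = 1 then 1 else 0) + (if d ∈ S then c d else 0) -
    (if d ∈ S₁ then c (d - 1) else 0), ?_, ?_, ?_⟩
  · have h1 : (insert 1 (S ∪ S₁)).card ≤ (S ∪ S₁).card + 1 := Finset.card_insert_le _ _
    have h2 : (S ∪ S₁).card ≤ S.card + S₁.card := Finset.card_union_le _ _
    have h3 : S₁.card ≤ S.card := Finset.card_image_le
    omega
  · intro d hd'
    rcases Finset.mem_insert.1 hd' with rfl | hd'
    · omega
    · rcases Finset.mem_union.1 hd' with hd' | hd'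
      · have := hd d hd'
        omega
      · obtain ⟨x, hx, rfl⟩ := Finset.mem_image.1 hd'
        have := hd x hx
        omega
  · intro t ht1 ht2
    have h1 := hv t (by omega) ht2
    have h2 := hv (t - 1) (by omega) (by omega)
    have e1 : ∑ d ∈ insert 1 (S ∪ S₁), (if d = 1 then (1 : ℝ) else 0) * v (t - d) = v (t - 1) := by
      rw [Finset.sum_eq_single 1]
      · simp
      · intro d _ hd1
        simp [hd1]
      · intro h
        exact absurd (Finset.mem_insert_self _ _) h
    have e2 : ∑ d ∈ insert 1 (S ∪ S₁), (if d ∈ S then c d else 0) * v (t - d) =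
        ∑ d ∈ S, c d * v (t - d) := by
      rw [← Finset.sum_subset (s₁ := S) (fun d hd => Finset.mem_insert_of_mem
        (Finset.mem_union_left _ hd)) (fun d _ hd => by simp [hd])]
      exact Finset.sum_congr rfl fun d hd => by simp [hd]
    have e3 : ∑ d ∈ insert 1 (S ∪ S₁), (if d ∈ S₁ then c (d - 1) else 0) * v (t - d) =
        ∑ d ∈ S, c d * v (t - 1 - d) := by
      rw [← Finset.sum_subset (s₁ := S₁) (fun d hd => Finset.mem_insert_of_mem
        (Finset.mem_union_right _ hd)) (fun d _ hd => by simp [hd])]
      rw [hS₁, Finset.sum_image (fun x _ y _ h => Nat.succ_injective h)]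
      apply Finset.sum_congr rfl
      intro d hd
      have : d.succ ∈ S.image Nat.succ := Finset.mem_image_of_mem _ hd
      rw [if_pos this]
      congr 2
      omega
    simp only [sub_mul, add_mul, Finset.sum_sub_distrib, Finset.sum_add_distrib]
    rw [e1, e2, e3, h1, h2]
    ring

/-- Off the breakpoints the word is copied. -/
theorem Produces.breaks {D : ℕ} {v : ℕ → ℝ} {N z : ℕ} (h : Produces D v N z) :
    ∃ B : Finset ℕ, B.card ≤ 2 * z ∧ ∀ s e, s + 2 ≤ e → e ≤ N → (∀ x ∈ B, ¬ (s < x ∧ x < e)) →
      LinCopy (2 * D + 1) v s e := by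
  classical
  induction h with
  | nil =>
    exact ⟨∅, by simp, fun s e h1 h2 _ => by omega⟩
  | @letter N z _ ih =>
    obtain ⟨B, hB, h⟩ := ih
    refine ⟨insert N B, (Finset.card_insert_le _ _).trans (by omega), ?_⟩
    intro s e h1 h2 h3
    rcases Nat.lt_or_ge N e with h4 | h4
    · have := h3 N (Finset.mem_insert_self _ _)
      omega
    · exact h s e h1 h4 (fun x hx => h3 x (Finset.mem_insert_of_mem hx))
  | @copy N M z _ hNM hc ih =>
    obtain ⟨B, hB, h⟩ := ih
    refine ⟨insert N (insert (N + 1) B), ?_, ?_⟩
    · have h1 : (insert N (insert (N + 1) B)).card ≤ (insert (N + 1) B).card + 1 :=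
        Finset.card_insert_le _ _
      have h2 : (insert (N + 1) B).card ≤ B.card + 1 := Finset.card_insert_le _ _
      omega
    intro s e h1 h2 h3
    rcases Nat.lt_or_ge N e with h4 | h4
    · have h5 := h3 N (Finset.mem_insert_self _ _)
      have h6 := h3 (N + 1) (Finset.mem_insert_of_mem (Finset.mem_insert_self _ _))
      obtain ⟨S, c, hS, hd, hv⟩ := hc.toLin
      refine ⟨S, c, hS, fun i hi => ⟨(hd i hi).1, ?_⟩, fun t ht1 ht2 => hv t (by omega) (by omega)⟩
      have := (hd i hi).2
      omega
    · exact h s e h1 h4 (fun x hx => h3 x (Finset.mem_insert_of_mem (Finset.mem_insert_of_mem hx)))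

/-- the word `u` occurs in `v` at the place `p` -/
def OccursAt (v : ℕ → ℝ) (u : List ℝ) (p : ℕ) : Prop :=
  ∀ i (hi : i < u.length), v (p + i) = u[i]

theorem parse_aux {W : Finset (List ℝ)} (hW : IsGrammar W) (v : ℕ → ℝ) :
    ∀ (n : ℕ) (u : List ℝ), u.length = n → u ∈ W → ∀ (N z : ℕ) (S : Finset (List ℝ)), S ⊆ W →
      (∀ s ∈ S, ∃ p, p + s.length ≤ N ∧ OccursAt v s p) → Produces 1 v N z → OccursAt v u N →
      ∃ (z' : ℕ) (S' : Finset (List ℝ)), S ⊆ S' ∧ S' ⊆ W ∧
        (∀ s ∈ S', ∃ p, p + s.length ≤ N + u.length ∧ OccursAt v s p) ∧ u ∈ S' ∧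
        (∀ s ∈ S', s ∉ S → s.length ≤ u.length) ∧
        Produces 1 v (N + u.length) z' ∧ z' + S.card ≤ z + S'.card + 1 := by
  classical
  intro n
  induction n using Nat.strong_induction_on with
  | _ n ih =>
    intro u hun hu N z S hS hocc hP hat
    by_cases huS : u ∈ S
    · -- copy
      obtain ⟨p, hp, hpo⟩ := hocc u huS
      rcases Nat.eq_zero_or_pos u.length with h0 | h0
      · refine ⟨z, S, Finset.Subset.refl _, hS, ?_, huS, fun s h1 h2 => absurd h1 h2, ?_, by omega⟩
        · intro s hs
          obtain ⟨p, hp, hpo⟩ := hocc s hs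
          exact ⟨p, by omega, hpo⟩
        · rw [h0, add_zero]
          exact hP
      · refine ⟨z + 1, S, Finset.Subset.refl _, hS, ?_, huS, fun s h1 h2 => absurd h1 h2, ?_,
          by omega⟩
        · intro s hs
          obtain ⟨p, hp, hpo⟩ := hocc s hs
          exact ⟨p, by omega, hpo⟩
        · have hd : 0 < N - p ∧ N - p ≤ N := by omega
          refine Produces.copy hP (by omega) ⟨{N - p}, 0, fun _ => 1, by simp, fun d hd' => ?_, ?_⟩
          · rw [Finset.mem_singleton.1 hd']
            exact hd
          intro t ht1 ht2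
          rw [Finset.sum_singleton, one_mul, zero_add]
          have h1 := hat (t - N) (by omega)
          have h2 := hpo (t - N) (by omega)
          rw [show N + (t - N) = t by omega] at h1
          rw [show p + (t - N) = t - (N - p) by omega] at h2
          rw [h1, h2]
    · rcases hW u hu with hlen | ⟨a, ha, b, hb, ha0, hb0, hab⟩
      · -- a letter
        refine ⟨z + u.length, insert u S, Finset.subset_insert _ _, ?_, ?_,
          Finset.mem_insert_self _ _, ?_, ?_, ?_⟩
        · exact Finset.insert_subset hu hS
        · intro s hs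
          rcases Finset.mem_insert.1 hs with rfl | hs
          · exact ⟨N, le_refl _, hat⟩
          · obtain ⟨p, hp, hpo⟩ := hocc s hs
            exact ⟨p, by omega, hpo⟩
        · intro s hs hs'
          rcases Finset.mem_insert.1 hs with rfl | hs
          · exact le_refl _
          · exact absurd hs hs'
        · rcases Nat.eq_zero_or_pos u.length with h0 | h0
          · rw [h0, add_zero, add_zero]
            exact hP
          · rw [show u.length = 1 by omega]
            exact Produces.letter hP
        · rw [Finset.card_insert_of_notMem huS]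
          omega
      · have hla : 0 < a.length := List.length_pos_iff.2 ha0
        have hlb : 0 < b.length := List.length_pos_iff.2 hb0
        have hl : u.length = a.length + b.length := by rw [hab, List.length_append]
        have hata : OccursAt v a N := by
          intro i hi
          have h1 := hat i (by omega)
          rw [h1]
          simp only [hab]
          rw [List.getElem_append_left hi]
        have hatb : OccursAt v b (N + a.length) := by
          intro i hi
          have h1 := hat (a.length + i) (by omega)
          rw [← add_assoc] at h1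
          rw [h1]
          simp only [hab]
          rw [List.getElem_append_right (by omega)]
          congr 1
          omega
        obtain ⟨z₁, S₁, a1, a2, a3, a4, a5, a6, a7⟩ := ih a.length (by omega) a rfl ha N z S hS
          hocc hP hata
        obtain ⟨z₂, S₂, b1, b2, b3, b4, b5, b6, b7⟩ := ih b.length (by omega) b rfl hb
          (N + a.length) z₁ S₁ a2 a3 a6 hatb
        have huS2 : u ∉ S₂ := by
          intro h
          by_cases h1 : u ∈ S₁
          · have := a5 u h1 huS
            omega
          · have := b5 u h h1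
            omega
        refine ⟨z₂, insert u S₂, (a1.trans b1).trans (Finset.subset_insert _ _),
          Finset.insert_subset hu b2, ?_, Finset.mem_insert_self _ _, ?_, ?_, ?_⟩
        · intro s hs
          rcases Finset.mem_insert.1 hs with rfl | hs
          · exact ⟨N, le_refl _, hat⟩
          · obtain ⟨p, hp, hpo⟩ := b3 s hs
            exact ⟨p, by omega, hpo⟩
        · intro s hs hs'
          rcases Finset.mem_insert.1 hs with rfl | hs
          · exact le_refl _
          · by_cases h1 : s ∈ S₁
            · have := a5 s h1 hs'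
              omega
            · have := b5 s hs h1
              omega
        · rw [hl, ← add_assoc]
          exact b6
        · rw [Finset.card_insert_of_notMem huS2]
          omega

/-- A grammar of a word gives a parsing of the word. -/
theorem produces_of_grammar {W : Finset (List ℝ)} (hW : IsGrammar W) {u : List ℝ} (hu : u ∈ W)
    {v : ℕ → ℝ} (hv : ∀ i (hi : i < u.length), v i = u[i]) :
    ∃ z ≤ W.card + 1, Produces 1 v u.length z := by
  obtain ⟨z, S, -, h2, -, -, -, h6, h7⟩ := parse_aux hW v u.length u rfl hu 0 0 ∅
    (Finset.empty_subset _) (by simp) Produces.nil (fun i hi => by rw [zero_add]; exact hv i hi)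
  rw [zero_add] at h6
  refine ⟨z, ?_, h6⟩
  have := Finset.card_le_card h2
  simp only [Finset.card_empty] at h7
  omega

end Pool.Agent.H723.LZ
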