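import Pool.Graph.R_seed8.H648R2.S.Digits
import Pool.Agent.H723.LZ.Parse

/-! The linear Lempel-Ziv complexity of the digits of algebraic numbers. -/

set_option autoImplicit false

open Finset

namespace Pool.Agent.H723.LZ

open Pool.Agent.H648R2.S (dig dig_indep)

section
variable (b : ℕ) (hb : 2 ≤ b) (ξ : ℝ) (hξ : IsAlgebraic ℚ ξ) (hirr : Irrational ξ)

include hb hξ hirr in
/-- the independence of windows, for all numbers of windows up to `D` -/
theorem indep_all (D C : ℕ) : ∃ M : ℕ, 1 ≤ M ∧ ∀ m : ℕ, M ≤ m → ∀ D' ≤ D, ∀ t : Fin D' → ℕ,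
    Function.Injective t → (∀ j, t j ≤ C * m) →
      LinearIndependent ℝ (fun (j : Fin D') (i : Fin m) => (dig b ξ (t j + i + 1) : ℝ)) := by
  choose M hM using fun D' : ℕ => dig_indep b hb ξ hξ hirr D' C
  refine ⟨(Finset.range (D + 1)).sup M + 1, by omega, fun m hm D' hD' t ht htC => ?_⟩
  refine hM D' m ?_ t ht htC
  have := Finset.le_sup (f := M) (Finset.mem_range.2 (by omega : D' < D + 1))
  omega

include hb hξ hirr in
/-- A long linear copy makes many errors. -/
theorem local_step (D E ρ : ℕ) : ∃ j₀ : ℕ, ∀ j, j₀ ≤ j → ∀ s, s + 2 ^ (j - ρ) ≤ 2 ^ (j + 1) →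
    ∀ v : ℕ → ℝ, LinCopy D v s (s + 2 ^ (j - ρ)) →
      E < ((Finset.Ico (2 ^ (j - ρ - 1)) (2 ^ (j + 1))).filter
        (fun t => v t ≠ (dig b ξ (t + 1) : ℝ))).card := by
  classical
  set Q := (D + 1) * E + 1 with hQ
  obtain ⟨M, hM1, hM⟩ := indep_all b hb ξ hξ hirr (D + 1) (2 ^ (ρ + 3) * Q)
  refine ⟨ρ + 1 + Q * M, ?_⟩
  intro j hj s hs v hcopy
  by_contra hcon
  push Not at hcon
  obtain ⟨S, c, hSD, hd, hv⟩ := hcopy
  obtain ⟨l, rfl⟩ : ∃ l, j = ρ + 1 + l := ⟨j - (ρ + 1), by omega⟩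
  have e1 : ρ + 1 + l - ρ = l + 1 := by omega
  have e2 : ρ + 1 + l - ρ - 1 = l := by omega
  rw [e1] at hs hv
  rw [e2] at hcon
  set L := 2 ^ l with hL
  have hL2 : 2 ^ (l + 1) = 2 * L := by rw [hL, pow_succ]; ring
  have hLj : 2 ^ (ρ + 1 + l + 1) = 2 ^ (ρ + 2) * L := by rw [hL, ← pow_add]; congr 1; omega
  rw [hL2] at hs hv
  rw [hLj] at hs hcon
  have hQM : Q * M ≤ L := by
    have h1 : Q * M ≤ l := by omega
    exact h1.trans (Nat.lt_two_pow_self).le
  have hQ0 : 0 < Q := by omega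
  set m := L / Q with hm
  have hmM : M ≤ m := by
    rw [hm, Nat.le_div_iff_mul_le hQ0, Nat.mul_comm]
    exact hQM
  have hm1 : 1 ≤ m := hM1.trans hmM
  have hQm : Q * m ≤ L := Nat.mul_div_le L Q
  have hLm : L < Q * (m + 1) := Nat.lt_mul_div_succ L hQ0
  -- the errors
  set Er := (Finset.Ico L (2 ^ (ρ + 2) * L)).filter (fun t => v t ≠ (dig b ξ (t + 1) : ℝ)) with hEr
  set Bd : Finset ℕ := Er.biUnion (fun x => insert x (S.image fun d => x + d))
    with hBd
  have hBdc : Bd.card < Q := by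
    have h1 : Bd.card ≤ ∑ x ∈ Er, (insert x (S.image fun d => x + d)).card :=
      Finset.card_biUnion_le
    have h2 : ∀ x ∈ Er, (insert x (S.image fun d => x + d)).card ≤ D + 1 := by
      intro x _
      refine (Finset.card_insert_le _ _).trans ?_
      have := Finset.card_image_le (s := S) (f := fun d => x + d)
      omega
    have h3 := Finset.sum_le_sum h2
    rw [Finset.sum_const, smul_eq_mul] at h3
    have h4 : Er.card * (D + 1) ≤ (D + 1) * E := by
      rw [Nat.mul_comm]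
      exact Nat.mul_le_mul_left _ hcon
    omega
  -- the good places
  have good : ∀ t, s + L ≤ t → t < s + 2 * L → t ∉ Bd →
      (dig b ξ (t + 1) : ℝ) = ∑ d ∈ S, c d * (dig b ξ (t - d + 1) : ℝ) := by
    intro t ht1 ht2 htB
    have h1 : v t = (dig b ξ (t + 1) : ℝ) := by
      by_contra h
      apply htB
      rw [hBd, Finset.mem_biUnion]
      exact ⟨t, Finset.mem_filter.2 ⟨Finset.mem_Ico.2 ⟨by omega, by omega⟩, h⟩,
        Finset.mem_insert_self _ _⟩
    rw [← h1, hv t (by omega) (by omega)]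
    apply Finset.sum_congr rfl
    intro d hdS
    congr 1
    by_contra h
    apply htB
    have h2 := (hd d hdS).2
    rw [hBd, Finset.mem_biUnion]
    refine ⟨t - d, Finset.mem_filter.2 ⟨Finset.mem_Ico.2 ⟨by omega, by omega⟩, h⟩,
      Finset.mem_insert_of_mem (Finset.mem_image.2 ⟨d, hdS, by omega⟩)⟩
  -- a piece without bad places
  obtain ⟨a, haQ, ha⟩ : ∃ a < Q, ∀ i < m, s + L + a * m + i ∉ Bd := by
    by_contra hno
    push Not at hno
    have hno' : ∀ a : Fin Q, ∃ i < m, s + L + a.1 * m + i ∈ Bd := fun a => hno a.1 a.2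
    choose f hf1 hf2 using hno'
    have hinj : Function.Injective (fun a : Fin Q => (⟨s + L + a.1 * m + f a, hf2 a⟩ : Bd)) := by
      intro a a' h
      have h1 : s + L + a.1 * m + f a = s + L + a'.1 * m + f a' := congrArg Subtype.val h
      apply Fin.ext
      have h2 : (a.1 * m + f a) / m = (a'.1 * m + f a') / m := by
        congr 1
        omega
      rw [Nat.mul_comm, Nat.mul_add_div (by omega), Nat.div_eq_of_lt (hf1 a), Nat.mul_comm a'.1,
        Nat.mul_add_div (by omega), Nat.div_eq_of_lt (hf1 a')] at h2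
      omega
    have h3 := Fintype.card_le_of_injective _ hinj
    rw [Fintype.card_fin, Fintype.card_coe] at h3
    omega
  set t₀ := s + L + a * m with ht₀
  have ham : a * m + m ≤ L := by
    have : (a + 1) * m ≤ Q * m := Nat.mul_le_mul_right _ haQ
    rw [Nat.add_mul, one_mul] at this
    omega
  -- the dependence
  set T : Finset ℕ := insert t₀ (S.image fun d => t₀ - d) with hT
  have hTc : T.card ≤ D + 1 := by
    refine (Finset.card_insert_le _ _).trans ?_
    have := Finset.card_image_le (s := S) (f := fun d => t₀ - d)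
    omega
  have hTle : ∀ x ∈ T, x ≤ t₀ := by
    intro x hx
    rcases Finset.mem_insert.1 hx with rfl | hx
    · exact le_refl _
    · obtain ⟨i, -, rfl⟩ := Finset.mem_image.1 hx
      omega
  have hpos : ∀ x ∈ T, x ≤ 2 ^ (ρ + 3) * Q * m := by
    intro x hx
    have h1 := hTle x hx
    have h2 : t₀ ≤ 2 ^ (ρ + 2) * L := by omega
    have h3 : L ≤ 2 * (Q * m) := by
      have h4 : Q * (m + 1) ≤ Q * (2 * m) := Nat.mul_le_mul_left _ (by omega)
      calc L ≤ Q * (m + 1) := hLm.le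
        _ ≤ Q * (2 * m) := h4
        _ = 2 * (Q * m) := by ring
    calc x ≤ 2 ^ (ρ + 2) * L := h1.trans h2
      _ ≤ 2 ^ (ρ + 2) * (2 * (Q * m)) := Nat.mul_le_mul_left _ h3
      _ = 2 ^ (ρ + 3) * Q * m := by rw [pow_succ 2 (ρ + 2)]; ring
  have hind := hM m hmM T.card hTc (fun j => T.orderEmbOfFin rfl j)
    (T.orderEmbOfFin rfl).injective (fun j => hpos _ (T.orderEmbOfFin_mem rfl j))
  rw [linearIndependent_iff_notMem_span] at hind
  have hidx : ∀ x ∈ T, ∃ j, T.orderEmbOfFin rfl j = x := by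
    intro x hx
    have : x ∈ Set.range (T.orderEmbOfFin rfl) := by
      rw [Finset.range_orderEmbOfFin]
      exact hx
    exact this
  obtain ⟨j₀, hj₀⟩ := hidx t₀ (Finset.mem_insert_self _ _)
  apply hind j₀
  simp only [hj₀]
  have hwin : (fun i : Fin m => (dig b ξ (t₀ + i + 1) : ℝ)) =
      ∑ l ∈ S, c l • (fun i : Fin m => (dig b ξ (t₀ - l + i + 1) : ℝ)) := by
    funext i
    rw [Finset.sum_apply]
    have h1 := good (t₀ + i) (by omega) (by have := i.2; omega) (ha i i.2)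
    rw [h1]
    apply Finset.sum_congr rfl
    intro l hl
    simp only [Pi.smul_apply, smul_eq_mul]
    have h2 := (hd l hl).2
    rw [show t₀ + (i : ℕ) - l = t₀ - l + i by omega]
  rw [hwin]
  apply Submodule.sum_mem
  intro l hl
  apply Submodule.smul_mem
  apply Submodule.subset_span
  obtain ⟨j, hj⟩ := hidx (t₀ - l)
    (Finset.mem_insert_of_mem (Finset.mem_image.2 ⟨l, hl, rfl⟩))
  refine ⟨j, ⟨Set.mem_univ _, ?_⟩, ?_⟩
  · intro h
    rw [Set.mem_singleton_iff] at h
    rw [h, hj₀] at hj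
    have h1 := (hd l hl).1
    have h2 := (hd l hl).2
    omega
  · simp only [hj]

include hb hξ hirr in
/-- **The main inequality**: instructions and errors. -/
theorem main (D K : ℕ) : ∃ N₀ : ℕ, ∀ N ≥ N₀, ∀ (v : ℕ → ℝ) (z : ℕ), Produces D v N z →
    K * Nat.log 2 N ≤ z + ((Finset.range N).filter
      (fun t => v t ≠ (dig b ξ (t + 1) : ℝ))).card := by
  classical
  rcases Nat.eq_zero_or_pos K with rfl | hK
  · exact ⟨0, fun N _ v z _ => by simp⟩
  set ρ := K + 3 with hρ
  set E := 4 * K * (ρ + 2) with hE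
  have hR : 8 * K ≤ 2 ^ ρ := by
    rw [hρ, pow_add]
    have := (Nat.lt_two_pow_self (n := K)).le
    omega
  obtain ⟨j₀, hj₀⟩ := local_step b hb ξ hξ hirr (2 * D + 1) E ρ
  refine ⟨2 ^ (2 * (j₀ + ρ + 1)), fun N hN v z hP => ?_⟩
  by_contra hcon
  push Not at hcon
  have hN0 : N ≠ 0 := by
    have : 0 < 2 ^ (2 * (j₀ + ρ + 1)) := by positivity
    omega
  set J := Nat.log 2 N with hJ
  have hJ1 : 2 * (j₀ + ρ + 1) ≤ J := by
    rw [hJ]
    exact Nat.le_log_of_pow_le (by norm_num) hN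
  have hJN : 2 ^ J ≤ N := Nat.pow_log_le_self 2 hN0
  obtain ⟨B, hB, hbr⟩ := hP.breaks
  set Er := (Finset.range N).filter (fun t => v t ≠ (dig b ξ (t + 1) : ℝ)) with hEr
  -- the two kinds of bad scales
  have key : ∀ j ∈ Finset.Ico (J / 2) J, (E + 1) * 2 ^ ρ ≤
      (E + 1) * (B.filter (fun x => 2 ^ j ≤ x ∧ x < 2 ^ (j + 1))).card +
        2 ^ ρ * (Er.filter (fun x => 2 ^ (j - ρ - 1) ≤ x ∧ x < 2 ^ (j + 1))).card := by
    intro j hj
    rw [Finset.mem_Ico] at hj
    have hjj : j₀ + ρ + 1 ≤ j := by omega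
    have hj1 : 2 ^ (j + 1) ≤ N := by
      refine le_trans ?_ hJN
      exact Nat.pow_le_pow_right (by norm_num) (by omega)
    have hpow : 2 ^ j = 2 ^ ρ * 2 ^ (j - ρ) := by
      rw [← pow_add]
      congr 1
      omega
    have hpow1 : 2 ^ (j + 1) = 2 ^ j + 2 ^ ρ * 2 ^ (j - ρ) := by
      rw [pow_succ, ← hpow]; ring
    set ℓ := 2 ^ (j - ρ) with hℓ
    have hℓ2 : 2 ≤ ℓ := by
      rw [hℓ]
      calc 2 = 2 ^ 1 := rfl
        _ ≤ 2 ^ (j - ρ) := Nat.pow_le_pow_right (by norm_num) (by omega)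
    by_cases hall : ∀ i : Fin (2 ^ ρ), ∃ x ∈ B, 2 ^ j + i.1 * ℓ < x ∧ x < 2 ^ j + i.1 * ℓ + ℓ
    · -- every piece has a breakpoint
      choose f hf1 hf2 hf3 using hall
      have h1 : 2 ^ ρ ≤ (B.filter (fun x => 2 ^ j ≤ x ∧ x < 2 ^ (j + 1))).card := by
        have hmem : ∀ i : Fin (2 ^ ρ), f i ∈ B.filter (fun x => 2 ^ j ≤ x ∧ x < 2 ^ (j + 1)) := by
          intro i
          have h2 := hf2 i
          have h3 := hf3 i
          have h4 : (i.1 + 1) * ℓ ≤ 2 ^ ρ * ℓ := Nat.mul_le_mul_right _ i.2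
          rw [Nat.add_mul, one_mul] at h4
          exact Finset.mem_filter.2 ⟨hf1 i, by omega, by omega⟩
        have hinj : Function.Injective (fun i : Fin (2 ^ ρ) =>
            (⟨f i, hmem i⟩ : {x // x ∈ B.filter (fun x => 2 ^ j ≤ x ∧ x < 2 ^ (j + 1))})) := by
          intro i i' h
          have h0 : f i = f i' := congrArg Subtype.val h
          have h2 := hf2 i
          have h3 := hf3 i
          have h2' := hf2 i'
          have h3' := hf3 i'
          rw [← h0] at h2' h3'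
          apply Fin.ext
          by_contra hne
          rcases Nat.lt_or_gt_of_ne hne with hlt | hlt
          · have h4 : (i.1 + 1) * ℓ ≤ i'.1 * ℓ := Nat.mul_le_mul_right _ hlt
            rw [Nat.add_mul, one_mul] at h4
            omega
          · have h4 : (i'.1 + 1) * ℓ ≤ i.1 * ℓ := Nat.mul_le_mul_right _ hlt
            rw [Nat.add_mul, one_mul] at h4
            omega
        have h5 := Fintype.card_le_of_injective _ hinj
        rwa [Fintype.card_fin, Fintype.card_coe] at h5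
      calc (E + 1) * 2 ^ ρ ≤ (E + 1) * (B.filter (fun x => 2 ^ j ≤ x ∧ x < 2 ^ (j + 1))).card :=
            Nat.mul_le_mul_left _ h1
        _ ≤ _ := Nat.le_add_right _ _
    · -- a piece without breakpoint
      push Not at hall
      obtain ⟨i, hi⟩ := hall
      have h4 : (i.1 + 1) * ℓ ≤ 2 ^ ρ * ℓ := Nat.mul_le_mul_right _ i.2
      rw [Nat.add_mul, one_mul] at h4
      have hc := hbr (2 ^ j + i.1 * ℓ) (2 ^ j + i.1 * ℓ + ℓ) (by omega) (by omega) (by
        intro x hx hcon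
        have := hi x hx hcon.1
        omega)
      have h5 := hj₀ j (by omega) (2 ^ j + i.1 * ℓ) (by omega) v hc
      have h6 : (Finset.Ico (2 ^ (j - ρ - 1)) (2 ^ (j + 1))).filter
          (fun t => v t ≠ (dig b ξ (t + 1) : ℝ)) ⊆
          Er.filter (fun x => 2 ^ (j - ρ - 1) ≤ x ∧ x < 2 ^ (j + 1)) := by
        intro x hx
        obtain ⟨hx1, hx2⟩ := Finset.mem_filter.1 hx
        rw [Finset.mem_Ico] at hx1
        exact Finset.mem_filter.2 ⟨Finset.mem_filter.2 ⟨Finset.mem_range.2 (by omega), hx2⟩, hx1⟩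
      have h7 := Finset.card_le_card h6
      calc (E + 1) * 2 ^ ρ = 2 ^ ρ * (E + 1) := Nat.mul_comm _ _
        _ ≤ 2 ^ ρ * (Er.filter (fun x => 2 ^ (j - ρ - 1) ≤ x ∧ x < 2 ^ (j + 1))).card :=
            Nat.mul_le_mul_left _ (by omega)
        _ ≤ _ := Nat.le_add_left _ _
  -- counting
  have hlog : ∀ x j : ℕ, 2 ^ j ≤ x → x < 2 ^ (j + 1) → Nat.log 2 x = j := by
    intro x j h1 h2
    exact (Nat.log_eq_iff (Or.inr ⟨by norm_num, by
      have : 0 < 2 ^ j := by positivity
      omega⟩)).2 ⟨h1, h2⟩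
  have sumB : ∑ j ∈ Finset.Ico (J / 2) J,
      (B.filter (fun x => 2 ^ j ≤ x ∧ x < 2 ^ (j + 1))).card ≤ 2 * z := by
    have h1 : ∑ j ∈ Finset.Ico (J / 2) J,
        (B.filter (fun x => 2 ^ j ≤ x ∧ x < 2 ^ (j + 1))).card =
        ((Finset.Ico (J / 2) J).biUnion
          (fun j => B.filter (fun x => 2 ^ j ≤ x ∧ x < 2 ^ (j + 1)))).card := by
      rw [Finset.card_biUnion]
      intro j _ j' _ hne
      rw [Function.onFun, Finset.disjoint_left]
      intro x hx hx'
      obtain ⟨-, h1, h2⟩ := Finset.mem_filter.1 hx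
      obtain ⟨-, h3, h4⟩ := Finset.mem_filter.1 hx'
      exact hne ((hlog x j h1 h2).symm.trans (hlog x j' h3 h4))
    rw [h1]
    refine le_trans (Finset.card_le_card ?_) hB
    intro x hx
    obtain ⟨j, -, hx⟩ := Finset.mem_biUnion.1 hx
    exact (Finset.mem_filter.1 hx).1
  have sumE : ∑ j ∈ Finset.Ico (J / 2) J,
      (Er.filter (fun x => 2 ^ (j - ρ - 1) ≤ x ∧ x < 2 ^ (j + 1))).card ≤ (ρ + 2) * Er.card := by
    have h1 := Finset.sum_card_bipartiteAbove_eq_sum_card_bipartiteBelow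
      (s := Finset.Ico (J / 2) J) (t := Er)
      (fun j x => 2 ^ (j - ρ - 1) ≤ x ∧ x < 2 ^ (j + 1))
    simp only [Finset.bipartiteAbove, Finset.bipartiteBelow] at h1
    rw [h1]
    calc _ ≤ ∑ _x ∈ Er, (ρ + 2) := by
          apply Finset.sum_le_sum
          intro x _
          have hsub : (Finset.Ico (J / 2) J).filter
              (fun j => 2 ^ (j - ρ - 1) ≤ x ∧ x < 2 ^ (j + 1)) ⊆
              Finset.Icc (Nat.log 2 x) (Nat.log 2 x + (ρ + 1)) := by
            intro j hj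
            obtain ⟨hj, h2, h3⟩ := Finset.mem_filter.1 hj
            have hx0 : x ≠ 0 := by
              have : 0 < 2 ^ (j - ρ - 1) := by positivity
              omega
            have h4 : j - ρ - 1 ≤ Nat.log 2 x := Nat.le_log_of_pow_le (by norm_num) h2
            have h5 : Nat.log 2 x < j + 1 := Nat.log_lt_of_lt_pow hx0 h3
            rw [Finset.mem_Icc]
            omega
          refine (Finset.card_le_card hsub).trans ?_
          rw [Nat.card_Icc]
          omega
      _ = (ρ + 2) * Er.card := by rw [Finset.sum_const, smul_eq_mul, Nat.mul_comm]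
  have total := Finset.sum_le_sum key
  rw [Finset.sum_const, Nat.card_Ico, smul_eq_mul, Finset.sum_add_distrib, ← Finset.mul_sum,
    ← Finset.mul_sum] at total
  set SB := ∑ j ∈ Finset.Ico (J / 2) J,
      (B.filter (fun x => 2 ^ j ≤ x ∧ x < 2 ^ (j + 1))).card
  set SE := ∑ j ∈ Finset.Ico (J / 2) J,
      (Er.filter (fun x => 2 ^ (j - ρ - 1) ≤ x ∧ x < 2 ^ (j + 1))).card
  set R := 2 ^ ρ with hRdef
  set k := Er.card with hk
  have hR0 : 0 < R := by rw [hRdef]; positivity
  -- `2 K J (E + 1) R ≤ (z + k) (E + 1) R`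
  have h1 : J ≤ 2 * (J - J / 2) := by omega
  have h2 : (J - J / 2) * ((E + 1) * R) ≤ (E + 1) * (2 * z) + R * ((ρ + 2) * k) := by
    refine total.trans (Nat.add_le_add (Nat.mul_le_mul_left _ sumB) (Nat.mul_le_mul_left _ sumE))
  have h3 : J * ((E + 1) * R) ≤ 2 * ((E + 1) * (2 * z) + R * ((ρ + 2) * k)) := by
    calc J * ((E + 1) * R) ≤ (2 * (J - J / 2)) * ((E + 1) * R) := Nat.mul_le_mul_right _ h1
      _ = 2 * ((J - J / 2) * ((E + 1) * R)) := by ring
      _ ≤ _ := Nat.mul_le_mul_left _ h2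
  have h4 : 2 * (K * J) * ((E + 1) * R) ≤ (z + k) * ((E + 1) * R) := by
    calc 2 * (K * J) * ((E + 1) * R) = 2 * K * (J * ((E + 1) * R)) := by ring
      _ ≤ 2 * K * (2 * ((E + 1) * (2 * z) + R * ((ρ + 2) * k))) := Nat.mul_le_mul_left _ h3
      _ = (8 * K) * ((E + 1) * z) + (4 * K * (ρ + 2)) * (R * k) := by ring
      _ ≤ R * ((E + 1) * z) + (E + 1) * (R * k) :=
          Nat.add_le_add (Nat.mul_le_mul_right _ hR) (Nat.mul_le_mul_right _ (by omega))
      _ = (z + k) * ((E + 1) * R) := by ring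
  have h5 := Nat.le_of_mul_le_mul_right h4 (by positivity)
  omega

end

end Pool.Agent.H723.LZ
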